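import Mathlib

set_option autoImplicit false
open Set Function Topology Filter

namespace Pool.Agent.H.MP_f74662

inductive T : Type
  | o : T
  | c : ℕ → T → T

open T

noncomputable def ρ : T → ℝ
  | o => 0
  | c n t => (1 + ρ t) / 4 ^ (n + 1)

lemma ρ_mem (t : T) : 0 ≤ ρ t ∧ ρ t ≤ 1 / 2 := by
  induction t with
  | o => simp [ρ]
  | c n t ih =>
    have h : (4 : ℝ) ≤ 4 ^ (n + 1) := le_self_pow₀ (by norm_num) (by omega)
    refine ⟨div_nonneg (by linarith [ih.1]) (by positivity), ?_⟩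
    rw [ρ, div_le_iff₀ (by positivity)]
    linarith [ih.2]

lemma ρ_lo (n : ℕ) (t : T) : 1 / 4 ^ (n + 1) ≤ ρ (c n t) :=
  div_le_div_of_nonneg_right (by linarith [(ρ_mem t).1]) (by positivity)

lemma ρ_hi (n : ℕ) (t : T) : ρ (c n t) < 2 / 4 ^ (n + 1) :=
  div_lt_div_of_pos_right (by linarith [(ρ_mem t).2]) (by positivity)

lemma gap {n m : ℕ} (h : n < m) : (2 : ℝ) / 4 ^ (m + 1) ≤ 1 / 2 / 4 ^ (n + 1) := by
  have h1 : (4 : ℝ) ^ (n + 2) ≤ 4 ^ (m + 1) := pow_le_pow_right₀ (by norm_num) (by omega)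
  calc (2 : ℝ) / 4 ^ (m + 1) ≤ 2 / 4 ^ (n + 2) := div_le_div_of_nonneg_left (by norm_num) (by positivity) h1
    _ = 1 / 2 / 4 ^ (n + 1) := by rw [pow_succ _ (n + 1)]; field_simp; norm_num

lemma band (n : ℕ) (x : T) : ρ x ∈ Ioo (1 / 2 / 4 ^ (n + 1) : ℝ) (2 / 4 ^ (n + 1)) ↔ ∃ t, x = c n t := by
  have hp : ∀ k : ℕ, (1 / 2 / 4 ^ (k + 1) : ℝ) < 1 / 4 ^ (k + 1) := fun k =>
    div_lt_div_of_pos_right (by norm_num) (by positivity)
  constructor
  · intro h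
    rcases x with _ | ⟨m, t⟩
    · exact absurd h.1 (not_lt.2 (by simp only [ρ]; positivity))
    · rcases lt_trichotomy n m with e | rfl | e
      · exact absurd (h.1.trans (ρ_hi m t)) (not_lt.2 (gap e))
      · exact ⟨t, rfl⟩
      · exact absurd (((hp m).trans_le (ρ_lo m t)).trans h.2) (not_lt.2 (gap e))
  · rintro ⟨t, rfl⟩
    exact ⟨(hp n).trans_le (ρ_lo n t), ρ_hi n t⟩

lemma ρ_inj : Injective ρ := by
  intro x
  induction x with
  | o =>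
    rintro (_ | ⟨m, t⟩) h
    · rfl
    · exact absurd (h ▸ ρ_lo m t) (not_le.2 (by simp only [ρ]; positivity))
  | c n t ih =>
    intro y h
    obtain ⟨s, rfl⟩ := (band n y).1 (h ▸ (band n _).2 ⟨t, rfl⟩)
    have : ρ t = ρ s := by
      simp only [ρ] at h
      field_simp at h
      linarith
    rw [ih this]

noncomputable instance : TopologicalSpace T := TopologicalSpace.induced ρ inferInstance

lemma ρ_emb : IsEmbedding ρ := ⟨⟨rfl⟩, ρ_inj⟩

instance : T1Space T := ρ_emb.t1Space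

lemma c_emb (n : ℕ) : IsOpenEmbedding (c n) := by
  have h : IsInducing (fun x : ℝ => (1 + x) / 4 ^ (n + 1)) :=
    ((Homeomorph.addLeft (1 : ℝ)).trans
      (Homeomorph.mulRight₀ ((4 : ℝ) ^ (n + 1))⁻¹ (by positivity))).isInducing
  refine ⟨⟨ρ_emb.isInducing.of_comp_iff.1 (h.comp ρ_emb.isInducing), fun a b e => by cases e; rfl⟩, ?_⟩
  have : range (c n) = ρ ⁻¹' Ioo (1 / 2 / 4 ^ (n + 1) : ℝ) (2 / 4 ^ (n + 1)) := by
    ext x
    rw [mem_preimage, band]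
    exact ⟨fun ⟨t, e⟩ => ⟨t, e.symm⟩, fun ⟨t, e⟩ => ⟨t, e.symm⟩⟩
  rw [this]
  exact isOpen_Ioo.preimage ρ_emb.continuous

def sl (n : ℕ) (X : Set T) : Set T := c n ⁻¹' X

lemma cl_c {M : Set T} {n : ℕ} {t : T} : c n t ∈ closure M ↔ t ∈ closure (sl n M) := by
  rw [sl, ← (c_emb n).isOpenMap.preimage_closure_eq_closure_preimage (c_emb n).continuous]
  rfl

lemma cl_o {M : Set T} : o ∈ closure M ↔ o ∈ M ∨ {n | (sl n M).Nonempty}.Infinite := by
  rw [ρ_emb.isInducing.closure_eq_preimage_closure_image, mem_preimage, Metric.mem_closure_iff]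
  constructor
  · intro h
    by_contra hn
    push Not at hn
    obtain ⟨N, hN⟩ := hn.2.bddAbove
    obtain ⟨_, ⟨x, hx, rfl⟩, h1⟩ := h (1 / 4 ^ (N + 1)) (by positivity)
    rcases x with _ | ⟨m, t⟩
    · exact hn.1 hx
    · have h2 : m ≤ N := hN ⟨t, hx⟩
      have h3 : (1 : ℝ) / 4 ^ (N + 1) ≤ 1 / 4 ^ (m + 1) :=
        div_le_div_of_nonneg_left (by norm_num) (by positivity)
          (pow_le_pow_right₀ (by norm_num) (by omega))
      rw [Real.dist_eq, show ρ o = 0 from rfl, zero_sub, abs_neg, abs_of_nonneg (ρ_mem _).1] at h1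
      linarith [ρ_lo m t]
  · rintro (h | h) ε hε
    · exact ⟨_, ⟨o, h, rfl⟩, by simpa using hε⟩
    · obtain ⟨N, hN⟩ := exists_pow_lt_of_lt_one hε (by norm_num : (1 / 4 : ℝ) < 1)
      obtain ⟨m, ⟨t, ht⟩, hm⟩ := h.exists_gt N
      refine ⟨_, ⟨_, ht, rfl⟩, ?_⟩
      rw [Real.dist_eq, show ρ o = 0 from rfl, zero_sub, abs_neg, abs_of_nonneg (ρ_mem _).1]
      have h1 := gap hm
      have h2 : (1 : ℝ) / 2 / 4 ^ (N + 1) ≤ (1 / 4) ^ N := by
        rw [one_div_pow, pow_succ, div_le_div_iff₀ (by positivity) (by positivity)]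
        have : (0 : ℝ) < 4 ^ N := by positivity
        linarith
      linarith [ρ_hi m t]

def IsE (f : T → T) (X Y : Set T) : Prop :=
  MapsTo f X Y ∧ ∀ x ∈ X, ∀ M ⊆ X, (x ∈ closure M ↔ f x ∈ closure (f '' M))

def Em (X Y : Set T) : Prop := ∃ f, IsE f X Y

variable {X Y Z : Set T} {f g : T → T}

lemma IsE.inj (h : IsE f X Y) : InjOn f X := by
  intro x hx y hy e
  have := h.2 x hx {y} (singleton_subset_iff.2 hy)
  simpa [e] using this

lemma IsE.comp (h : IsE f X Y) (h' : IsE g Y Z) : IsE (g ∘ f) X Z := by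
  refine ⟨h'.1.comp h.1, fun x hx M hM => ?_⟩
  rw [h.2 x hx M hM, h'.2 _ (h.1 hx) _ ((h.1.mono_left hM).image_subset), image_comp]
  rfl

lemma IsE.mono (h : IsE f X Y) {X' Y' : Set T} (h1 : X' ⊆ X) (h2 : MapsTo f X' Y') : IsE f X' Y' :=
  ⟨h2, fun x hx M hM => h.2 x (h1 hx) M (hM.trans h1)⟩

lemma Em.trans (h : Em X Y) (h' : Em Y Z) : Em X Z :=
  let ⟨_, h1⟩ := h; let ⟨_, h2⟩ := h'; ⟨_, h1.comp h2⟩

lemma Em.sub (h : X ⊆ Y) : Em X Y := ⟨id, h, fun x _ M _ => by simp⟩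

lemma Em.rfl : Em X X := Em.sub Subset.rfl

lemma isE_c (n : ℕ) (X : Set T) : IsE (c n) (sl n X) X := by
  refine ⟨fun _ h => h, fun x _ M _ => ?_⟩
  rw [cl_c, sl, preimage_image_eq _ (c_emb n).injective]

lemma IsE.inv (h : IsE f X Y) : ∃ g, IsE g (f '' X) X ∧ ∀ x ∈ X, g (f x) = x := by
  have : Nonempty T := ⟨o⟩
  have hl := h.inj.leftInvOn_invFunOn
  refine ⟨invFunOn f X, ⟨?_, ?_⟩, hl⟩
  · rintro _ ⟨x, hx, rfl⟩
    rw [hl hx]; exact hx
  · rintro _ ⟨x, hx, rfl⟩ M hM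
    have h1 : invFunOn f X '' M ⊆ X := by
      rintro _ ⟨y, hy, rfl⟩
      obtain ⟨z, hz, rfl⟩ := hM hy
      rw [hl hz]; exact hz
    have h2 : f '' (invFunOn f X '' M) = M := by
      rw [image_image]
      refine (image_congr fun y hy => ?_).trans (image_id M)
      obtain ⟨z, hz, rfl⟩ := hM hy
      rw [hl hz]; rfl
    rw [hl hx, h.2 x hx _ h1, h2]

lemma Em.img (h : Em X Y) : ∃ Z ⊆ Y, Em X Z ∧ Em Z X := by
  obtain ⟨f, hf⟩ := h
  obtain ⟨g, hg, -⟩ := hf.inv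
  exact ⟨f '' X, hf.1.image_subset, ⟨f, hf.mono Subset.rfl (mapsTo_image f X)⟩, g, hg⟩

def res (Y : Set T) (F : Set ℕ) : Set T := {y ∈ Y | ∃ m ∈ F, ∃ s, y = c m s}

def tail (N : ℕ) (X : Set T) : Set T := {x ∈ X | ∀ m s, x = c m s → N ≤ m}

lemma c_res {F : Set ℕ} {m : ℕ} {s : T} : c m s ∈ res Y F ↔ c m s ∈ Y ∧ m ∈ F :=
  ⟨fun ⟨h, _, h1, _, e⟩ => by cases e; exact ⟨h, h1⟩, fun h => ⟨h.1, m, h.2, s, rfl⟩⟩

lemma o_res {F : Set ℕ} : o ∉ res Y F := fun ⟨_, _, _, _, e⟩ => by cases e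

lemma res_sub {F : Set ℕ} : res Y F ⊆ Y := fun _ h => h.1

lemma res_mono {F F' : Set ℕ} (h : X ⊆ Y) (h' : F ⊆ F') : res X F ⊆ res Y F' :=
  fun _ ⟨h1, m, h2, h3⟩ => ⟨h h1, m, h' h2, h3⟩

lemma em_res {F : Set ℕ} {m : ℕ} (hm : m ∈ F) (h : Em X (sl m Y)) : Em X (res Y F) :=
  h.trans ⟨_, (isE_c m Y).mono Subset.rfl fun _ ht => c_res.2 ⟨ht, hm⟩⟩

lemma res_em (m : ℕ) : ∃ g, IsE g (res Y {m}) (sl m Y) ∧ ∀ s, c m s ∈ Y → g (c m s) = s := by
  obtain ⟨g, hg, h⟩ := (isE_c m Y).inv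
  refine ⟨g, hg.mono ?_ (hg.1.mono_left ?_), h⟩ <;>
  · rintro _ ⟨h1, _, rfl, s, rfl⟩
    exact ⟨s, h1, rfl⟩

lemma glue (F : ℕ → Set ℕ) (hd : ∀ n n' m, m ∈ F n → m ∈ F n' → n = n')
    (h : ∀ n, Em (sl n X) (res Y (F n))) (ho : o ∈ X → o ∈ Y ∧ ∀ n, (F n).Finite) : Em X Y := by
  choose f hf using h
  let g : T → T := fun x => match x with
    | o => o
    | c n t => f n t
  have h1 : ∀ n t, c n t ∈ X → ∃ m ∈ F n, ∃ s, f n t = c m s := fun n t ht => ((hf n).1 ht).2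
  refine ⟨g, ?_, ?_⟩
  · rintro (_ | ⟨n, t⟩) hx
    · exact (ho hx).1
    · exact ((hf n).1 hx).1
  · rintro (_ | ⟨n, t⟩) hx M hM
    · show _ ↔ o ∈ _
      rw [cl_o, cl_o]
      refine or_congr ⟨fun h => ⟨o, h, rfl⟩, ?_⟩ ⟨fun h hf' => h ?_, fun h hf' => h ?_⟩
      · rintro ⟨_ | ⟨n, t⟩, h, e⟩
        · exact h
        · obtain ⟨m, -, s, e'⟩ := h1 n t (hM h)
          cases e'.symm.trans e
      · refine (hf'.biUnion (t := fun m => {n | m ∈ F n}) fun m _ =>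
          Set.Subsingleton.finite fun a ha b hb => hd a b m ha hb).subset ?_
        rintro n ⟨t, ht⟩
        obtain ⟨m, hm, s, e⟩ := h1 n t (hM ht)
        exact mem_iUnion₂.2 ⟨m, ⟨s, _, ht, e⟩, hm⟩
      · refine (hf'.biUnion fun n _ => (ho hx).2 n).subset ?_
        rintro m ⟨s, _ | ⟨n, t⟩, ht, e⟩
        · cases e
        · obtain ⟨m', hm, s', e'⟩ := h1 n t (hM ht)
          cases e'.symm.trans e
          exact mem_iUnion₂.2 ⟨n, ⟨t, ht⟩, hm⟩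
    · obtain ⟨m, hm, s, e⟩ := h1 n t hx
      show _ ↔ f n t ∈ _
      rw [cl_c, (hf n).2 t hx (sl n M) fun _ h => hM h, e, cl_c, cl_c]
      suffices sl m (f n '' sl n M) = sl m (g '' M) by rw [this]
      ext u
      constructor
      · rintro ⟨v, hv, e'⟩
        exact ⟨_, hv, e'⟩
      · rintro ⟨_ | ⟨n', v⟩, hv, e'⟩
        · cases e'
        · obtain ⟨m', hm', s', e''⟩ := h1 n' v (hM hv)
          cases e''.symm.trans e'
          cases hd n n' m hm hm'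
          exact ⟨v, hv, e'⟩

lemma glue1 (φ : ℕ → ℕ) (hφ : Injective φ) (h : ∀ n, Em (sl n X) (sl (φ n) Y))
    (ho : o ∈ X → o ∈ Y) : Em X Y :=
  glue (fun n => {φ n}) (fun _ _ _ h h' => hφ (h.symm.trans h')) (fun n => em_res rfl (h n))
    fun h => ⟨ho h, fun _ => finite_singleton _⟩

def Sep (A B : Set T) : Prop := (∀ x ∈ A, x ∉ closure B) ∧ ∀ x ∈ B, x ∉ closure A

lemma glue2 {X1 X2 Y1 Y2 : Set T} (hX : Sep X1 X2) (hY : Sep Y1 Y2) (h1 : Em X1 Y1)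
    (h2 : Em X2 Y2) : Em (X1 ∪ X2) (Y1 ∪ Y2) := by
  classical
  obtain ⟨f1, h1⟩ := h1
  obtain ⟨f2, h2⟩ := h2
  let g : T → T := fun x => if x ∈ X1 then f1 x else f2 x
  have e1 : ∀ x ∈ X1, g x = f1 x := fun x hx => if_pos hx
  have e2 : ∀ x ∈ X2, g x = f2 x := fun x hx => if_neg fun h => hX.1 x h (subset_closure hx)
  refine ⟨g, ?_, fun x hx M hM => ?_⟩
  · rintro x (hx | hx)
    · exact Or.inl (e1 x hx ▸ h1.1 hx)
    · exact Or.inr (e2 x hx ▸ h2.1 hx)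
  have e : M = (M ∩ X1) ∪ (M ∩ X2) := by rw [← inter_union_distrib_left, inter_eq_left.2 hM]
  have e' : g '' M = f1 '' (M ∩ X1) ∪ f2 '' (M ∩ X2) := by
    conv_lhs => rw [e, image_union]
    rw [image_congr fun x hx => e1 x hx.2, image_congr fun x hx => e2 x hx.2]
  rw [e', closure_union]
  conv_lhs => rw [e, closure_union]
  rcases hx with hx | hx
  · rw [e1 x hx, mem_union, mem_union, ← h1.2 x hx _ inter_subset_right,
      or_iff_left fun h => hX.1 x hx (closure_mono inter_subset_right h),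
      or_iff_left fun h => hY.1 _ (h1.1 hx)
        (closure_mono (h2.1.mono_left inter_subset_right).image_subset h)]
  · rw [e2 x hx, mem_union, mem_union, ← h2.2 x hx _ inter_subset_right,
      or_iff_right fun h => hX.2 x hx (closure_mono inter_subset_right h),
      or_iff_right fun h => hY.2 _ (h2.1 hx)
        (closure_mono (h1.1.mono_left inter_subset_right).image_subset h)]

lemma nc {m : ℕ} {s : T} (h : ∀ t, c m t ∉ X) : c m s ∉ closure X := by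
  rw [cl_c, show sl m X = ∅ from eq_empty_of_forall_notMem h]
  simp

lemma sep_res {F F' : Set ℕ} (h : ∀ m ∈ F, m ∉ F') : Sep (res X F) (res Y F') := by
  constructor
  · rintro _ ⟨-, m, hm, s, rfl⟩
    exact nc fun t ht => h m hm (c_res.1 ht).2
  · rintro _ ⟨-, m, hm, s, rfl⟩
    exact nc fun t ht => h m (c_res.1 ht).2 hm

lemma sep_tail (N : ℕ) : Sep (tail N X) (res Y (Iio N)) := by
  constructor
  · rintro (_ | ⟨m, s⟩) hx
    · rw [cl_o, not_or, not_infinite]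
      exact ⟨o_res, (finite_Iio N).subset fun m ⟨t, ht⟩ => (c_res.1 ht).2⟩
    · exact nc fun t ht => absurd (hx.2 m s rfl) (not_le.2 (c_res.1 ht).2)
  · rintro _ ⟨-, m, hm, s, rfl⟩
    exact nc fun t ht => absurd (ht.2 m t rfl) (not_le.2 hm)

lemma tail_union (N : ℕ) (X : Set T) : tail N X ∪ res X (Iio N) = X := by
  refine Subset.antisymm (union_subset (fun _ h => h.1) res_sub) ?_
  rintro (_ | ⟨m, s⟩) hx
  · exact Or.inl ⟨hx, fun _ _ e => by cases e⟩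
  · rcases lt_or_ge m N with h | h
    · exact Or.inr (c_res.2 ⟨hx, h⟩)
    · exact Or.inl ⟨hx, fun _ _ e => by cases e; exact h⟩

lemma IsE.loc (h : IsE f X Y) (hx : o ∈ X) {m : ℕ} {s : T} (e : f o = c m s) :
    ∃ N g, IsE g (tail N X) (sl m Y) ∧ g o = s := by
  have h1 : o ∉ closure {x ∈ X | f x ∉ res Y {m}} := by
    rw [h.2 o hx _ (sep_subset _ _), e]
    refine nc ?_
    rintro t ⟨x, hx', e'⟩
    exact hx'.2 (e' ▸ c_res.2 ⟨e' ▸ h.1 hx'.1, rfl⟩)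
  rw [cl_o, not_or, not_infinite] at h1
  obtain ⟨N, hN⟩ := h1.2.bddAbove
  obtain ⟨g, hg, hg'⟩ := res_em (Y := Y) m
  refine ⟨N + 1, g ∘ f, (h.mono (fun _ h => h.1) ?_).comp hg, ?_⟩
  · rintro (_ | ⟨n, t⟩) hx'
    · exact e ▸ c_res.2 ⟨e ▸ h.1 hx, rfl⟩
    · by_contra hn
      have h2 : n ≤ N := hN ⟨t, hx'.1, hn⟩
      have := hx'.2 n t rfl
      omega
  · exact (congrArg g e).trans (hg' s (e ▸ h.1 hx))

lemma IsE.top (h : IsE f X Y) (hx : o ∈ X) (e : f o = o) (n : ℕ) :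
    ∃ F : Set ℕ, F.Finite ∧ Em (sl n X) (res Y F) := by
  have h1 : o ∉ closure (res X {n}) := by
    rw [cl_o, not_or, not_infinite]
    exact ⟨o_res, (finite_singleton n).subset fun m ⟨t, ht⟩ => (c_res.1 ht).2⟩
  rw [h.2 o hx _ res_sub, e, cl_o, not_or, not_infinite] at h1
  refine ⟨_, h1.2, _, ((isE_c n X).comp h).mono Subset.rfl fun t ht => ?_⟩
  have h2 : f (c n t) ∈ f '' res X {n} := ⟨_, c_res.2 ⟨ht, rfl⟩, rfl⟩
  have h3 : f (c n t) ∈ Y := h.1 ht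
  show f (c n t) ∈ _
  generalize f (c n t) = y at h2 h3
  rcases y with _ | ⟨m, s⟩
  · exact absurd h2 h1.1
  · exact c_res.2 ⟨h3, s, h2⟩

end Pool.Agent.H.MP_f74662
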