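import Pool.Agent.H.MP_f74662.A

set_option autoImplicit false
open Set Function Topology Filter

namespace Pool.Agent.H.MP_f74662

open T

variable {X Y Z : Set T} {f g : T → T}

def W (V : ℕ → Set T) : Set T := fun x => match x with
  | o => False
  | c n t => t ∈ V n

def Lm (V : ℕ → Set T) : Set T := fun x => match x with
  | o => True
  | c n t => t ∈ V n

def L (X : Set T) : Set T := Lm fun _ => X

def om (X : Set T) : Set T := W fun _ => X

@[simp] lemma sl_W (V : ℕ → Set T) (n : ℕ) : sl n (W V) = V n := rfl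
@[simp] lemma sl_L (n : ℕ) : sl n (L X) = X := rfl
@[simp] lemma sl_om (n : ℕ) : sl n (om X) = X := rfl
lemma o_W (V : ℕ → Set T) : o ∉ W V := fun h => h
lemma o_L : o ∈ L X := trivial
lemma sl_mono (n : ℕ) (h : X ⊆ Y) : sl n X ⊆ sl n Y := fun _ ht => h ht
lemma sl_res {F : Set ℕ} {n : ℕ} (h : n ∈ F) : sl n (res X F) = sl n X :=
  Set.ext fun _ => c_res.trans (and_iff_left h)
lemma sl_res' {F : Set ℕ} {n : ℕ} (h : n ∉ F) : sl n (res X F) = ∅ :=
  eq_empty_of_forall_notMem fun _ ht => h (c_res.1 ht).2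
lemma em_empty : Em ∅ X := Em.sub (empty_subset _)
lemma sl_em (n : ℕ) : Em (sl n X) X := ⟨_, isE_c n X⟩

lemma reix {F : Set ℕ} (φ : ℕ → ℕ) (hφ : Injective φ) (h : ∀ n ∈ F, Em (sl n X) (sl (φ n) Y)) :
    Em (res X F) (res Y (φ '' F)) := by
  refine glue1 φ hφ (fun n => ?_) fun h => absurd h o_res
  by_cases hn : n ∈ F
  · rw [sl_res hn, sl_res (mem_image_of_mem φ hn)]; exact h n hn
  · rw [sl_res' hn]; exact em_empty

lemma pinj (n : ℕ) : Injective (Nat.pair n) := fun _ _ h => (Nat.pair_eq_pair.1 h).2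

lemma pdis {F : ℕ → Set ℕ} (n n' m : ℕ) (h : m ∈ Nat.pair n '' F n) (h' : m ∈ Nat.pair n' '' F n') :
    n = n' := by
  obtain ⟨a, -, e⟩ := h
  obtain ⟨b, -, e'⟩ := h'
  exact (Nat.pair_eq_pair.1 (e.trans e'.symm)).1

def fle (X Y : Set T) : Prop := ∃ F : Set ℕ, F.Finite ∧ Em X (res (om Y) F)

lemma Em.fle (h : Em X Y) : fle X Y := ⟨{0}, finite_singleton _, em_res (mem_singleton 0) h⟩

lemma Em.trans_fle (h : Em X Y) (h' : H.MP_f74662.fle Y Z) : H.MP_f74662.fle X Z :=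
  let ⟨F, h1, h2⟩ := h'; ⟨F, h1, h.trans h2⟩

lemma fle_fin {F : Set ℕ} (hF : F.Finite) (h : ∀ n ∈ F, fle (sl n X) Y) : fle (res X F) Y := by
  have h1 : ∀ n, ∃ G : Set ℕ, G.Finite ∧ (n ∉ F → G = ∅) ∧ Em (sl n (res X F)) (res (om Y) G) := by
    intro n
    by_cases hn : n ∈ F
    · obtain ⟨G, h1, h2⟩ := h n hn
      exact ⟨G, h1, fun h => absurd hn h, by rwa [sl_res hn]⟩
    · exact ⟨∅, finite_empty, fun _ => rfl, by rw [sl_res' hn]; exact em_empty⟩
  choose G h1 h2 h3 using h1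
  refine ⟨⋃ n ∈ F, Nat.pair n '' G n, hF.biUnion fun n _ => (h1 n).image _,
    glue (fun n => Nat.pair n '' G n) pdis (fun n => ?_) fun h => absurd h o_res⟩
  refine ((h3 n).trans (reix (Y := om Y) _ (pinj n) fun _ _ => Em.rfl)).trans (Em.sub ?_)
  rintro _ ⟨h, m, hm, s, rfl⟩
  refine c_res.2 ⟨c_res.2 ⟨h, ?_⟩, hm⟩
  by_cases hn : n ∈ F
  · exact mem_biUnion hn hm
  · rw [h2 n hn, image_empty] at hm; exact hm.elim

lemma fle.trans (h : fle X Y) (h' : fle Y Z) : fle X Z :=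
  let ⟨_, h1, h2⟩ := h; h2.trans_fle (fle_fin h1 fun _ _ => h')

lemma fle_union {X1 X2 : Set T} (hs : Sep X1 X2) (h1 : fle X1 Y) (h2 : fle X2 Y) :
    fle (X1 ∪ X2) Y := by
  obtain ⟨F1, a1, b1⟩ := h1
  obtain ⟨F2, a2, b2⟩ := h2
  refine ⟨Nat.pair 0 '' F1 ∪ Nat.pair 1 '' F2, (a1.image _).union (a2.image _), (glue2 hs
    (sep_res (F := Nat.pair 0 '' F1) (F' := Nat.pair 1 '' F2) ?_)
    (b1.trans (reix (Y := om Y) _ (pinj 0) fun _ _ => Em.rfl))
    (b2.trans (reix (Y := om Y) _ (pinj 1) fun _ _ => Em.rfl))).trans (Em.sub (union_subset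
      (res_mono Subset.rfl subset_union_left) (res_mono Subset.rfl subset_union_right)))⟩
  rintro _ ⟨a, -, rfl⟩ ⟨b, -, e⟩
  simpa using (Nat.pair_eq_pair.1 e).1

lemma L_mono (h : fle X Y) : Em (L X) (L Y) := by
  obtain ⟨F, h1, h2⟩ := h
  exact glue (fun n => Nat.pair n '' F) (pdis (F := fun _ => F))
    (fun n => h2.trans (reix (Y := L Y) _ (pinj n) fun _ _ => Em.rfl))
    fun _ => ⟨trivial, fun _ => h1.image _⟩

lemma L_tail (N : ℕ) : Em (L X) (tail N (L X)) :=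
  glue1 (· + N) (add_left_injective N) (fun _ => Em.sub fun _ ht =>
    ⟨ht, fun _ _ e => by cases e; omega⟩) fun _ => ⟨trivial, fun _ _ e => by cases e⟩

lemma sl_tail (N : ℕ) (X : Set T) : sl N (tail N X) = sl N X :=
  Set.ext fun _ => and_iff_left fun _ _ e => by cases e; rfl

lemma germ (h : Em (L X) Y) (ho : o ∉ Y) : ∃ m, Em (L X) (sl m Y) := by
  obtain ⟨f, hf⟩ := h
  have h1 := hf.1 o_L
  rcases e : f o with _ | ⟨m, s⟩
  · exact absurd (e ▸ h1) ho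
  · obtain ⟨N, g, hg, -⟩ := hf.loc o_L e
    exact ⟨m, (L_tail N).trans ⟨g, hg⟩⟩

lemma top_fle {N : ℕ} (h : IsE g (tail N (L X)) (L Y)) (e : g o = o) : fle X Y := by
  obtain ⟨F, h1, h2⟩ := h.top ⟨trivial, fun _ _ e => by cases e⟩ e N
  rw [sl_tail] at h2
  exact ⟨F, h1, h2.trans (Em.sub fun _ ⟨h, m, hm, s, e⟩ => by subst e; exact c_res.2 ⟨h, hm⟩)⟩

lemma absorb {X1 X2 : Set T} (hs : Sep X1 X2) (h1 : Em X1 (L Y)) (h2 : fle X2 Y) :
    Em (X1 ∪ X2) (L Y) := by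
  obtain ⟨F, a, b⟩ := h2
  obtain ⟨N, hN⟩ := a.bddAbove
  rw [← tail_union (N + 1) (L Y)]
  refine glue2 hs (sep_tail _) (h1.trans (L_tail _)) (b.trans (Em.sub ?_))
  rintro _ ⟨h, m, hm, s, rfl⟩
  exact c_res.2 ⟨h, Nat.lt_succ_of_le (hN hm)⟩

lemma om_sum (ho : o ∉ X) (h : ∀ n, Em (sl n X) (om Y)) : Em X (om Y) := by
  refine glue (fun n => Nat.pair n '' univ) (pdis (F := fun _ => univ)) (fun n => ?_)
    fun h => absurd h ho
  refine ((h n).trans (Em.sub ?_)).trans (reix (X := om Y) (Y := om Y) _ (pinj n) fun _ _ => Em.rfl)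
  rintro (_ | ⟨m, s⟩) hx
  · exact hx.elim
  · exact c_res.2 ⟨hx, trivial⟩

def D : ℕ → Set T → Set T
  | 0, X => X
  | j + 1, X => {x ∈ X | x ∈ closure (D j X \ {x})}

lemma D_sub (j : ℕ) : D j X ⊆ X := by
  cases j
  · exact Subset.rfl
  · exact fun _ h => h.1

lemma IsE.D (h : IsE f X Y) (j : ℕ) : MapsTo f (D j X) (D j Y) := by
  induction j with
  | zero => exact h.1
  | succ j ih =>
    intro x hx
    refine ⟨h.1 hx.1, closure_mono ?_ ((h.2 x hx.1 _ (sdiff_subset.trans (D_sub j))).1 hx.2)⟩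
    rintro _ ⟨y, hy, rfl⟩
    exact ⟨ih hy.1, fun e => hy.2 (h.inj (D_sub j hy.1) hx.1 e)⟩

lemma D_mono (j : ℕ) (h : X ⊆ Y) : D j X ⊆ D j Y :=
  IsE.D (f := id) ⟨h, fun x _ M _ => by simp⟩ j

lemma Em.D (h : Em X Y) {j : ℕ} (h' : (D j X).Nonempty) : (D j Y).Nonempty :=
  let ⟨_, hf⟩ := h; let ⟨_, hx⟩ := h'; ⟨_, hf.D j hx⟩

lemma Em.Dfin (h : Em X Y) {j : ℕ} (h' : (H.MP_f74662.D j Y).Finite) : (H.MP_f74662.D j X).Finite :=
  let ⟨_, hf⟩ := h
  Set.Finite.of_finite_image (h'.subset (hf.D j).image_subset) (hf.inj.mono (D_sub j))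

lemma sl_D (j n : ℕ) : sl n (D j X) = D j (sl n X) := by
  induction j with
  | zero => rfl
  | succ j ih =>
    ext t
    show _ ∧ _ ↔ _ ∧ _
    rw [cl_c, ← ih]
    refine and_congr Iff.rfl (Iff.of_eq (congrArg (fun M => t ∈ closure M) ?_))
    ext s
    exact and_congr Iff.rfl (not_congr ⟨fun e => by cases e; rfl, fun e => by cases e; rfl⟩)

lemma c_D {j n : ℕ} {t : T} : c n t ∈ D j X ↔ t ∈ D j (sl n X) := by rw [← sl_D]; rfl

lemma o_D {j : ℕ} : o ∈ D (j + 1) X ↔ o ∈ X ∧ {n | (D j (sl n X)).Nonempty}.Infinite := by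
  show _ ∧ _ ↔ _
  rw [cl_o, or_iff_right fun h => h.2 rfl]
  refine and_congr Iff.rfl (Iff.of_eq (congrArg Set.Infinite ?_))
  ext n
  exact ⟨fun ⟨t, ht⟩ => ⟨t, c_D.1 ht.1⟩, fun ⟨t, ht⟩ => ⟨t, c_D.2 ht, fun e => by cases e⟩⟩

lemma D_next {j : ℕ} (h : D j X ⊆ {o}) : D (j + 1) X = ∅ := by
  refine eq_empty_of_forall_notMem fun x hx => ?_
  have h1 : x ∈ ({o} : Set T) \ {x} := by
    have := closure_mono (sdiff_subset_sdiff_left h) hx.2
    rwa [((finite_singleton o).subset sdiff_subset).isClosed.closure_eq] at this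
  exact h1.2 rfl

lemma D_top {j : ℕ} (h : ∀ n, D j (sl n X) = ∅) : D j X ⊆ {o} := by
  rintro (_ | ⟨n, t⟩) hx
  · rfl
  · exact absurd (c_D.1 hx) (h n ▸ notMem_empty t)

lemma D_none {j : ℕ} (h : ∀ n, D j (sl n X) = ∅) (ho : o ∉ X) : D j X = ∅ :=
  eq_empty_of_forall_notMem fun _ hx => ho ((D_top h hx) ▸ D_sub j hx)

lemma D_empty (j : ℕ) : D j (∅ : Set T) = ∅ := subset_empty_iff.1 (D_sub j)

lemma o_DL {j : ℕ} (h : (D j X).Nonempty) : o ∈ D (j + 1) (L X) :=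
  o_D.2 ⟨trivial, infinite_univ.mono fun _ _ => h⟩

lemma fin_sl {M : Set T} (h : {n | (sl n M).Nonempty}.Finite) (h' : ∀ n, (sl n M).Finite) :
    M.Finite := by
  refine ((h.biUnion fun n _ => (h' n).image (c n)).insert o).subset ?_
  rintro (_ | ⟨n, t⟩) hx
  · exact Or.inl rfl
  · exact Or.inr (mem_iUnion₂.2 ⟨n, ⟨t, hx⟩, t, hx, rfl⟩)

lemma fin_away {j : ℕ} {M : Set T} (h : M ⊆ D j (L X)) (hX : (D j X).Finite) (ho : o ∉ closure M) :
    M.Finite := by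
  rw [cl_o, not_or, not_infinite] at ho
  exact fin_sl ho.2 fun n => hX.subset fun t ht => c_D.1 (h ht)

lemma fle.Dfin (h : fle X Y) {j : ℕ} (h' : (D j Y).Finite) : (D j X).Finite := by
  obtain ⟨F, h1, h2⟩ := h
  refine h2.Dfin (fin_sl (h1.subset fun n ⟨t, ht⟩ => (c_res.1 (D_sub j ht)).2) fun n => ?_)
  rw [sl_D]
  exact h'.subset (D_mono j (sl_mono n res_sub))

def S : ℕ → Set T
  | 0 => {o}
  | r + 1 => L (S r)

lemma S_D (r : ℕ) : o ∈ D r (S r) ∧ D r (S r) ⊆ {o} := by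
  induction r with
  | zero => exact ⟨rfl, Subset.rfl⟩
  | succ r ih => exact ⟨o_DL ⟨o, ih.1⟩, D_top fun _ => D_next ih.2⟩

lemma S_min (r : ℕ) : ∀ (x : T) (X : Set T), x ∈ D r X → Em (S r) X := by
  induction r with
  | zero =>
    intro x X hx
    refine ⟨fun _ => x, fun _ _ => hx, ?_⟩
    rintro _ rfl M hM
    rcases subset_singleton_iff_eq.1 hM with rfl | rfl <;> simp
  | succ r ih =>
    intro x
    induction x with
    | c n t iht => exact fun X hx => (iht _ (c_D.1 hx)).trans (sl_em n)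
    | o =>
      intro X hx
      obtain ⟨h1, h2⟩ := o_D.1 hx
      exact glue1 (fun n => (h2.natEmbedding _ n).1)
        (Subtype.val_injective.comp (h2.natEmbedding _).injective)
        (fun n => let ⟨t, ht⟩ := (h2.natEmbedding _ n).2; ih t _ ht) fun _ => h1

def Φ (X : Set T) : Prop := ∃ (ι : Type) (_ : Finite ι) (k : Set T → ι),
  ∀ V ⊆ X, ∀ U : ℕ → Set T, (∀ m, U m ⊆ X ∧ k (U m) = k V) →
    ∃ F : Set ℕ, F.Finite ∧ Em V (res (W U) F)

lemma Φ_L (h : Φ X) : Φ (L X) := by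
  classical
  obtain ⟨ι, _, k, hk⟩ := h
  refine ⟨Prop × Set ι × Set ι, inferInstance, fun V => (o ∈ V, {i | ∃ n, k (sl n V) = i},
    {i | {n | k (sl n V) = i}.Infinite}), fun V hV U hU => ?_⟩
  have a0 : o ∈ V → o ∈ U 0 := fun h => (congrArg Prod.fst (hU 0).2).mpr h
  have a1 : ∀ n m, ∃ l, k (sl l (U m)) = k (sl n V) := fun n m => by
    have e : {i | ∃ n, k (sl n (U m)) = i} = {i | ∃ n, k (sl n V) = i} :=
      congrArg (fun p => p.2.1) (hU m).2
    exact (Set.ext_iff.1 e _).2 ⟨n, rfl⟩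
  have a2 : ∀ i, {n | k (sl n V) = i}.Infinite → {n | k (sl n (U 0)) = i}.Infinite := fun i h => by
    have e : {i | {n | k (sl n (U 0)) = i}.Infinite} = {i | {n | k (sl n V) = i}.Infinite} :=
      congrArg (fun p => p.2.2) (hU 0).2
    exact (Set.ext_iff.1 e _).2 h
  let J : Set ℕ := {n | ¬ {l | k (sl l V) = k (sl n V)}.Infinite}
  have hJ : J.Finite := by
    refine ((toFinite {i | {l | k (sl l V) = i}.Finite}).biUnion fun i hi => hi).subset fun n hn => ?_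
    exact mem_iUnion₂.2 ⟨_, not_infinite.1 hn, rfl⟩
  choose l hl using a1
  have b1 : ∀ n, ∃ F : Set ℕ, F.Finite ∧ Em (sl n V) (res (W U) ((fun m => Nat.pair n m + 1) '' F)) := by
    intro n
    obtain ⟨F, h1, h2⟩ := hk (sl n V) (sl_mono n hV) (fun m => sl (l n (Nat.pair n m + 1)) (U (Nat.pair n m + 1)))
      fun m => ⟨sl_mono _ (hU _).1, hl _ _⟩
    exact ⟨F, h1, h2.trans (reix _ ((add_left_injective 1).comp (pinj n)) fun m _ => by
      simpa using sl_em _)⟩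
  choose F hF1 hF2 using b1
  obtain ⟨μ, hμ1, hμ2⟩ := extraction_forall_of_frequently
    (P := fun p m => p.unpair.1 ∉ J → k (sl m (U 0)) = k (sl p.unpair.1 V)) fun p => by
      by_cases hp : p.unpair.1 ∈ J
      · exact Frequently.of_forall fun _ h => absurd hp h
      · exact (Nat.frequently_atTop_iff_infinite.2 (a2 _ (not_not.1 hp))).mono fun _ h _ => h
  have b2 : ∀ n, ∃ G : Set ℕ, G.Finite ∧
      Em (sl n (V \ res V J)) (res (U 0) (μ '' (Nat.pair n '' G))) := by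
    intro n
    by_cases hn : n ∈ J
    · exact ⟨∅, finite_empty, Em.sub fun t ht => (ht.2 (c_res.2 ⟨ht.1, hn⟩)).elim⟩
    · obtain ⟨G, h1, h2⟩ := hk (sl n V) (sl_mono n hV) (fun m => sl (μ (Nat.pair n m)) (U 0))
        fun m => ⟨sl_mono _ (hU _).1, by simpa using hμ2 (Nat.pair n m) (by simpa using hn)⟩
      refine ⟨G, h1, ((Em.sub (sl_mono n sdiff_subset)).trans h2).trans ?_⟩
      rw [image_image]
      exact reix _ (hμ1.injective.comp (pinj n)) fun m _ => Em.rfl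
  choose G hG1 hG2 using b2
  have c1 : Em (V \ res V J) (res (W U) {0}) := by
    refine em_res rfl (glue (fun n => μ '' (Nat.pair n '' G n)) ?_ hG2
      fun h => ⟨a0 h.1, fun n => ((hG1 n).image _).image _⟩)
    rintro n n' _ ⟨a, ha, rfl⟩ ⟨b, hb, e⟩
    cases hμ1.injective e
    exact pdis (F := G) n n' _ ha hb
  have c2 : Em (res V J) (res (W U) (⋃ n ∈ J, (fun m => Nat.pair n m + 1) '' F n)) := by
    refine glue (fun n => (fun m => Nat.pair n m + 1) '' F n) ?_ (fun n => ?_) fun h => absurd h o_res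
    · rintro n n' _ ⟨a, -, rfl⟩ ⟨b, -, e⟩
      exact (Nat.pair_eq_pair.1 (Nat.succ_injective e)).1.symm
    · by_cases hn : n ∈ J
      · rw [sl_res hn]
        refine (hF2 n).trans (Em.sub ?_)
        rintro _ ⟨h, m, hm, s, rfl⟩
        exact c_res.2 ⟨c_res.2 ⟨h, mem_biUnion hn hm⟩, hm⟩
      · rw [sl_res' hn]; exact em_empty
  have c3 : Sep (V \ res V J) (res V J) := by
    constructor
    · rintro (_ | ⟨m, s⟩) hx
      · rw [cl_o, not_or, not_infinite]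
        exact ⟨o_res, hJ.subset fun m ⟨t, ht⟩ => (c_res.1 ht).2⟩
      · exact nc fun t ht => hx.2 (c_res.2 ⟨hx.1, (c_res.1 ht).2⟩)
    · rintro _ ⟨-, m, hm, s, rfl⟩
      exact nc fun t ht => ht.2 (c_res.2 ⟨ht.1, hm⟩)
  refine ⟨{0} ∪ ⋃ n ∈ J, (fun m => Nat.pair n m + 1) '' F n, (finite_singleton 0).union
    (hJ.biUnion fun n _ => (hF1 n).image _), ?_⟩
  have c4 := glue2 c3 (sep_res ?_) c1 c2
  · rw [sdiff_union_of_subset res_sub] at c4
    exact c4.trans (Em.sub (union_subset (res_mono Subset.rfl subset_union_left)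
      (res_mono Subset.rfl subset_union_right)))
  · rintro _ rfl h
    obtain ⟨n, -, a, -, e⟩ := mem_iUnion₂.1 h
    cases e

lemma Φ_S (r : ℕ) : Φ (S r) := by
  induction r with
  | zero =>
    refine ⟨Prop, inferInstance, fun V => o ∈ V, fun V hV U hU => ⟨{0}, finite_singleton _,
      em_res rfl (Em.sub fun x hx => ?_)⟩⟩
    obtain rfl : x = o := hV hx
    exact (hU 0).2.mpr hx
  | succ r ih => exact Φ_L ih

end Pool.Agent.H.MP_f74662
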