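import Pool.Agent.H.MP_f74662.B

set_option autoImplicit false
open Set Function Topology Filter

namespace Pool.Agent.H.MP_f74662

open T

variable {X Y Z y y' y'' : Set T} {f g : T → T} {r : ℕ}

def P1 (y V : Set T) : Set T := W fun n => match n with
  | 0 => y
  | _ + 1 => V

def pre (r : ℕ) (y y' : Set T) : Prop := Em y (P1 y' (S r))

lemma em_all (ho : o ∉ X) : Em X (res X univ) := by
  refine Em.sub ?_
  rintro (_ | ⟨m, s⟩) hx
  · exact absurd hx ho
  · exact c_res.2 ⟨hx, trivial⟩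

lemma Em.pre (h : Em y y') : pre r y y' := h.trans (sl_em (X := P1 y' (S r)) 0)

lemma pre_sm (h : Em y (om (S r))) : pre r y y' :=
  h.trans (glue1 (· + 1) (add_left_injective 1) (fun _ => Em.rfl) fun h => h.elim)

lemma pre.trans (h : pre r y y') (h' : pre r y' y'') : pre r y y'' := by
  refine Em.trans h (glue (fun n => Nat.pair n '' (if n = 0 then univ else {1}))
    (pdis (F := fun n => if n = 0 then univ else {1})) (fun n => ?_) fun h => h.elim)
  rcases n with _ | n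
  · refine (Em.trans h' (em_all (o_W _))).trans (reix _ (pinj 0) fun m _ => ?_)
    rcases m with _ | m
    · exact Em.rfl
    · obtain ⟨k, hk⟩ : ∃ k, Nat.pair 0 (m + 1) = k + 1 :=
        Nat.exists_eq_succ_of_ne_zero fun e => by
          have := Nat.right_le_pair 0 (m + 1); omega
      rw [hk]; exact Em.rfl
  · refine em_res (m := Nat.pair (n + 1) 1) ⟨1, by simp, rfl⟩ ?_
    obtain ⟨k, hk⟩ : ∃ k, Nat.pair (n + 1) 1 = k + 1 :=
      Nat.exists_eq_succ_of_ne_zero fun e => by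
        have := Nat.right_le_pair (n + 1) 1; omega
    rw [hk]; exact Em.rfl

lemma sm_no (h : y ⊆ L (S r)) (ho : o ∉ y) : Em y (om (S r)) := by
  refine Em.sub ?_
  rintro (_ | ⟨m, s⟩) hx
  · exact absurd hx ho
  · exact h hx

lemma pre_tail {N : ℕ} (h : y ⊆ L (S r)) (h' : Em (tail N y) y') : pre r y y' := by
  have h1 : Em (res y (Iio N)) (res (P1 y' (S r)) ((· + 1) '' Iio N)) :=
    reix _ (add_left_injective 1) fun n _ => Em.sub (sl_mono n h)
  have := glue2 (sep_tail N) (sep_res (X := P1 y' (S r)) (F := {0}) ?_) (em_res rfl h') h1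
  · rw [tail_union] at this
    exact this.trans (Em.sub (union_subset res_sub res_sub))
  · rintro _ rfl ⟨a, -, e⟩
    cases e

lemma S_pre : pre r (S r) y := pre_sm (sl_em (X := om (S r)) 0)

lemma loc' (h : Em y Y) (hy : o ∈ y) (ho : o ∉ Y) : ∃ N m, Em (tail N y) (sl m Y) := by
  obtain ⟨f, hf⟩ := h
  have h1 := hf.1 hy
  rcases e : f o with _ | ⟨m, s⟩
  · exact absurd (e ▸ h1) ho
  · obtain ⟨N, g, hg, -⟩ := hf.loc hy e
    exact ⟨N, m, g, hg⟩

lemma fle.pre (h : fle y y') (hy : y ⊆ L (S r)) : pre r y y' := by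
  by_cases ho : o ∈ y
  · obtain ⟨F, -, h⟩ := h
    obtain ⟨N, m, h⟩ := loc' h ho o_res
    exact pre_tail hy (h.trans (Em.sub (sl_mono m res_sub)))
  · exact pre_sm (sm_no hy ho)

lemma tail_tail (N N' : ℕ) : tail (max N N') y ⊆ tail N' (tail N y) := fun _ h =>
  ⟨⟨h.1, fun m s e => (le_max_left _ _).trans (h.2 m s e)⟩,
    fun m s e => (le_max_right _ _).trans (h.2 m s e)⟩

lemma o_tail {N : ℕ} (h : o ∈ y) : o ∈ tail N y := ⟨h, fun _ _ e => by cases e⟩

def Xc : ℕ → ℕ → Set T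
  | 0, _ => {o}
  | r + 1, j => L (if j ≤ r then Xc r j else P1 (Xc r r) (S r))

lemma Xc_spec (r : ℕ) : Xc r 0 = S r ∧ (∀ j, Em (Xc r j) (S (r + 1)) ∧ o ∈ D r (Xc r j) ∧
    D r (Xc r j) ⊆ {o}) ∧ ∀ i j, i < j → j ≤ r → Em (Xc r i) (Xc r j) ∧ ¬ fle (Xc r j) (Xc r i) := by
  induction r with
  | zero => exact ⟨rfl, fun j => ⟨Em.sub fun _ h => h ▸ o_L, rfl, Subset.rfl⟩, fun i j _ _ => by omega⟩
  | succ r ih =>
    obtain ⟨h0, h1, h2⟩ := ih
    let V : ℕ → Set T := fun j => if j ≤ r then Xc r j else P1 (Xc r r) (S r)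
    have v1 : ∀ j, fle (V j) (S (r + 1)) ∧ (D r (V j)).Nonempty ∧ D (r + 1) (V j) = ∅ := by
      intro j
      by_cases hj : j ≤ r
      · simp only [V, if_pos hj]
        exact ⟨(h1 j).1.fle, ⟨o, (h1 j).2.1⟩, D_next (h1 j).2.2⟩
      · simp only [V, if_neg hj]
        refine ⟨?_, ⟨c 1 o, c_D.2 (S_D r).1⟩, D_none (fun n => ?_) (o_W _)⟩
        · rw [← tail_union 1 (P1 (Xc r r) (S r))]
          refine fle_union (sep_tail 1) (Em.fle (Em.sub ?_)) (fle_fin (finite_Iio 1) fun n hn => ?_)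
          · rintro (_ | ⟨_ | m, s⟩) hx
            · exact hx.1.elim
            · exact absurd (hx.2 0 s rfl) (by omega)
            · exact hx.1
          · obtain rfl : n = 0 := by simpa using hn
            exact (h1 r).1.fle
        · rcases n with _ | n
          · exact D_next (h1 r).2.2
          · exact D_next (S_D r).2
    have v2 : ∀ i j, i < j → j ≤ r + 1 → fle (V i) (V j) ∧ ¬ fle (V j) (V i) := by
      intro i j hij hj
      have hi : i ≤ r := by omega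
      by_cases hj' : j ≤ r
      · simp only [V, if_pos hj', if_pos hi]
        exact ⟨(h2 i j hij hj').1.fle, (h2 i j hij hj').2⟩
      · simp only [V, if_neg hj', if_pos hi]
        refine ⟨Em.fle (Em.trans ?_ (sl_em (X := P1 (Xc r r) (S r)) 0)), fun h => ?_⟩
        · rcases hi.lt_or_eq with h | rfl
          · exact (h2 i r h le_rfl).1
          · exact Em.rfl
        · refine (h.Dfin ((finite_singleton o).subset (h1 i).2.2)).not_infinite ?_
          exact infinite_of_injective_forall_mem (f := fun n => c (n + 1) o)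
            (fun a b e => by cases e; rfl) fun n => c_D.2 (S_D r).1
    have v3 : ∀ j, o ∈ D (r + 1) (L (V j)) ∧ D (r + 1) (L (V j)) ⊆ {o} := fun j =>
      ⟨o_DL (v1 j).2.1, D_top fun _ => (v1 j).2.2⟩
    refine ⟨by simp [Xc, S, h0], fun j => ⟨L_mono (v1 j).1, v3 j⟩, fun i j hij hj =>
      ⟨L_mono (v2 i j hij hj).1, ?_⟩⟩
    rintro ⟨F, -, h⟩
    obtain ⟨m, h⟩ := germ h o_res
    obtain ⟨f, hf⟩ := h.trans (Em.sub (sl_mono m res_sub))
    have e : f o = o := (v3 i).2 (hf.D _ (v3 j).1)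
    exact (v2 i j hij hj).2 (top_fle (N := 0) (hf.mono (fun _ h => h.1) fun _ h => hf.1 h.1) e)

def Ht (r : ℕ) : ℕ → Set T → Prop
  | 0, _ => True
  | n + 1, y => ∃ z ⊆ L (S r), pre r z y ∧ ¬ pre r y z ∧ Ht r n z

lemma Ht.mono {n : ℕ} (h : Ht r n y) (h' : pre r y y') : Ht r n y' := by
  cases n
  · trivial
  · obtain ⟨z, h1, h2, h3, h4⟩ := h
    exact ⟨z, h1, h2.trans h', fun e => h3 (h'.trans e), h4⟩

lemma Ht_up {n : ℕ} (h : Ht r n y) (h1 : Em y (L (S r))) (h2 : pre r y y') (h3 : ¬ pre r y' y) :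
    Ht r (n + 1) y' := by
  obtain ⟨z, a, b, d⟩ := h1.img
  exact ⟨z, a, d.pre.trans h2, fun e => h3 (e.trans d.pre), h.mono b.pre⟩

lemma Ht_g (r : ℕ) : Ht r (r + 1) (L (S r)) := by
  obtain ⟨h0, h1, h2⟩ := Xc_spec r
  have key : ∀ j ≤ r, Ht r j (Xc r j) := by
    intro j
    induction j with
    | zero => intro _; trivial
    | succ j ih =>
      intro hj
      refine Ht_up (ih (by omega)) (h1 j).1 (h2 j _ (by omega) hj).1.pre fun h => ?_
      obtain ⟨r, rfl⟩ : ∃ k, r = k + 1 := ⟨r - 1, by omega⟩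
      obtain ⟨m, h⟩ := germ h (o_W _)
      rcases m with _ | m
      · exact (h2 j _ (by omega) hj).2 h.fle
      · exact (h2 0 _ (by omega) hj).2 (h0 ▸ h.fle)
  refine Ht_up (key r le_rfl) (h1 r).1 (h1 r).1.pre fun h => ?_
  obtain ⟨m, h⟩ := germ h (o_W _)
  have := h.D ⟨o, (S_D (r + 1)).1⟩
  rcases m with _ | m
  · exact this.ne_empty (D_next (h1 r).2.2)
  · exact this.ne_empty (D_next (S_D r).2)

def Cov (r : ℕ) (z y : Set T) : Prop :=
  pre r z y ∧ ¬ pre r y z ∧ ∀ w ⊆ L (S r), pre r z w → pre r w y → pre r w z ∨ pre r y w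

lemma Φ.fle {ι : Type} {k : Set T → ι} (hk : ∀ V ⊆ X, ∀ U : ℕ → Set T,
    (∀ m, U m ⊆ X ∧ k (U m) = k V) → ∃ F : Set ℕ, F.Finite ∧ Em V (res (W U) F))
    (h1 : y ⊆ X) (h2 : y' ⊆ X) (e : k y' = k y) : fle y y' :=
  hk y h1 (fun _ => y') fun _ => ⟨h2, e⟩

lemma step {n : ℕ} (h : Ht r (n + 1) y) : ∃ z ⊆ L (S r), Ht r n z ∧ Cov r z y := by
  obtain ⟨ι, _, k, hk⟩ := Φ_S (r + 1)
  let μ : Set T → ℕ := fun z => {i | ∃ u ⊆ L (S r), k u = i ∧ pre r z u ∧ ¬ pre r u z}.ncard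
  obtain ⟨z, ⟨a, b, d, e⟩, hz⟩ := (InvImage.wf μ wellFounded_lt).has_min
    {z | z ⊆ L (S r) ∧ pre r z y ∧ ¬ pre r y z ∧ Ht r n z} h
  refine ⟨z, a, e, b, d, fun w h1 h2 h3 => ?_⟩
  by_contra hn
  push Not at hn
  refine hz w ⟨h1, h3, hn.2, e.mono h2⟩ (ncard_lt_ncard ⟨?_, fun hs => ?_⟩)
  · rintro i ⟨u, u1, u2, u3, u4⟩
    exact ⟨u, u1, u2, h2.trans u3, fun e => u4 (e.trans h2)⟩
  · obtain ⟨u, u1, u2, -, u4⟩ := hs ⟨w, h1, rfl, h2, hn.1⟩
    exact u4 ((Φ.fle hk u1 h1 u2.symm).pre u1)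

lemma chain (n N : ℕ) : ∀ y ⊆ L (S r), Ht r (n + N) y → ∃ Y : ℕ → Set T, Y N = y ∧ Ht r n (Y 0) ∧
    (∀ j ≤ N, Y j ⊆ L (S r)) ∧ ∀ j < N, Cov r (Y j) (Y (j + 1)) := by
  induction N with
  | zero => exact fun y hy h => ⟨fun _ => y, rfl, h, fun _ _ => hy, fun _ h => by omega⟩
  | succ N ih =>
    intro y hy h
    obtain ⟨z, a, b, d⟩ := step h
    obtain ⟨Y, h1, h2, h3, h4⟩ := ih z a b
    refine ⟨update Y (N + 1) y, update_self _ _ _, by rwa [update_of_ne (by omega)], fun j hj => ?_,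
      fun j hj => ?_⟩
    · rcases hj.lt_or_eq with h | rfl
      · rw [update_of_ne h.ne]; exact h3 j (by omega)
      · rwa [update_self]
    · rw [update_of_ne (by omega)]
      rcases (Nat.le_of_lt_succ hj).lt_or_eq with h | rfl
      · rw [update_of_ne (by omega)]; exact h4 j h
      · rwa [update_self, h1]

lemma fin_g (h : y ⊆ L (S r)) (ho : o ∈ y) (h' : D (r + 1) y = ∅) : (D r y).Finite := by
  refine fin_sl ?_ fun n => ?_
  · by_contra hn
    simp only [sl_D] at hn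
    exact absurd (o_D.2 ⟨ho, hn⟩) (h' ▸ notMem_empty o)
  · rw [sl_D]
    exact (finite_singleton o).subset ((D_mono r (sl_mono n h)).trans (S_D r).2)

structure Good (r : ℕ) (y0 Dd : Set T) : Prop where
  d0 : ¬ pre r y0 ∅
  d1 : D (r + 1) Dd = ∅
  d2 : (D r Dd).Finite
  d3 : Em (S r) Dd
  d4 : ¬ fle Dd (S r)
  d5 : ∀ X, o ∉ X → (∀ n, sl n X ⊆ S r ∧ D r (sl n X) = ∅) → Em X Dd
  d6 : ∀ y ⊆ L (S r), o ∈ y → pre r y y0 → ¬ pre r y0 y → fle y Dd
  d7 : ∀ y ⊆ L (S r), o ∈ y → ∀ N, Em (tail N y) Dd → ¬ pre r y0 y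

lemma exD {y0 : Set T} (h0 : y0 ⊆ L (S r)) (h : Ht r 2 y0) : ∃ Dd, Good r y0 Dd := by
  classical
  obtain ⟨z, z1, z2, z3, z', -, -, z4, -⟩ := h
  have z5 : ¬ pre r z ∅ := fun e => z4 (e.trans em_empty.pre)
  have d0 : ¬ pre r y0 ∅ := fun e => z5 (z2.trans e)
  obtain ⟨ι, _, k, hk⟩ := Φ_S r
  obtain ⟨κ, _, k', hk'⟩ := Φ_S (r + 1)
  obtain ⟨e, he⟩ := exists_injective_nat ι
  obtain ⟨e', he'⟩ := exists_injective_nat κ
  have t1 : ∀ j : ℕ, ∃ τ ⊆ S r, D r τ = ∅ ∧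
      ∀ V ⊆ S r, D r V = ∅ → e (k V) = j → k τ = k V := by
    intro j
    by_cases hj : ∃ V ⊆ S r, D r V = ∅ ∧ e (k V) = j
    · obtain ⟨V, a, b, d⟩ := hj
      exact ⟨V, a, b, fun V' _ _ d' => he (d.trans d'.symm)⟩
    · exact ⟨∅, empty_subset _, D_empty r, fun V a b d => (hj ⟨V, a, b, d⟩).elim⟩
  choose τ τ1 τ2 τ3 using t1
  have t2 : ∀ j : ℕ, ∃ η ⊆ L (S r), (η = ∅ ∨ o ∈ η) ∧ ¬ pre r y0 η ∧ (j ∉ range e' → η = ∅) ∧
      ∀ y ⊆ L (S r), o ∈ y → ¬ pre r y0 y → e' (k' y) = j → k' η = k' y := by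
    intro j
    by_cases hj : ∃ y ⊆ L (S r), o ∈ y ∧ ¬ pre r y0 y ∧ e' (k' y) = j
    · obtain ⟨V, a, b, d, d'⟩ := hj
      exact ⟨V, a, Or.inr b, d, fun h => (h ⟨_, d'⟩).elim, fun V' _ _ _ d'' => he' (d'.trans d''.symm)⟩
    · exact ⟨∅, empty_subset _, Or.inl rfl, d0, fun _ => rfl,
        fun V a b d d' => (hj ⟨V, a, b, d, d'⟩).elim⟩
  choose η η1 η2 η3 η4 η5 using t2
  let Q : Set T := W fun p => τ p.unpair.1
  have q1 : D r Q = ∅ := D_none (fun n => τ2 _) (o_W _)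
  let δ : ℕ → Set T := fun n => match n with
    | 0 => Q
    | 1 => S r
    | n + 2 => η n
  have η6 : ∀ n, D (r + 1) (η n) = ∅ := fun n => by
    by_contra hn
    obtain ⟨x, hx⟩ := nonempty_iff_ne_empty.2 hn
    exact η3 n (((Em.sub h0).trans (S_min (r + 1) x _ hx)).pre)
  have d6 : ∀ y ⊆ L (S r), o ∈ y → ¬ pre r y0 y → fle y (W δ) := fun y a b d =>
    (Φ.fle hk' a (η1 _) (η5 _ y a b d rfl)).trans (sl_em (X := W δ) (e' (k' y) + 2)).fle
  refine ⟨W δ, d0, D_none (fun n => ?_) (o_W _), fin_sl ?_ fun n => ?_, sl_em (X := W δ) 1,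
    fun h => ?_, fun X ho hX => ?_, fun y a b _ d => d6 y a b d, fun y a b N h d => ?_⟩
  · rcases n with _ | _ | n
    · exact D_next (q1.subset.trans (empty_subset _))
    · exact D_next (S_D r).2
    · exact η6 n
  · refine (((finite_range e').image (· + 2)).union (finite_Iio 2)).subset ?_
    rintro (_ | _ | n) ⟨t, ht⟩
    · exact Or.inr (by simp)
    · exact Or.inr (by simp)
    · refine Or.inl ⟨n, ?_, rfl⟩
      by_contra hn
      have : t ∈ η n := D_sub r (X := W δ) ht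
      rw [η4 n hn] at this
      exact this
  · rw [sl_D]
    rcases n with _ | _ | n
    · exact finite_empty.subset q1.subset
    · exact (finite_singleton o).subset (S_D r).2
    · rcases η2 n with h | h
      · exact finite_empty.subset ((D_sub r).trans h.subset)
      · exact fin_g (η1 n) h (η6 n)
  · have ho : o ∈ z := by
      by_contra hn
      exact z5 (pre_sm (sm_no z1 hn))
    exact z5 ((((d6 z z1 ho z3).trans h).pre z1).trans S_pre)
  · have h1 : ∀ n, ∃ F : Set ℕ, Em (sl n X) (res Q (Nat.pair (e (k (sl n X))) '' (Nat.pair n '' F))) := by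
      intro n
      obtain ⟨F, -, h⟩ := Φ.fle hk (hX n).1 (τ1 _) (τ3 _ _ (hX n).1 (hX n).2 rfl)
      refine ⟨F, h.trans ?_⟩
      rw [image_image]
      exact reix _ ((pinj _).comp (pinj n)) fun m _ => by simpa [Q] using Em.rfl
    choose F hF using h1
    refine (glue _ ?_ hF fun h => absurd h ho).trans (sl_em (X := W δ) 0)
    rintro n n' _ ⟨a, ha, rfl⟩ ⟨b, hb, e⟩
    cases (Nat.pair_eq_pair.1 e).2
    exact pdis (F := F) n n' _ ha hb
  · obtain ⟨N', m, h⟩ := loc' h (o_tail b) (o_W _)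
    have h1 := d.trans (pre_tail a ((Em.sub (tail_tail N N')).trans h))
    rcases m with _ | _ | m
    · refine d0 (h1.trans (pre_sm (Em.sub ?_)))
      rintro (_ | ⟨m, s⟩) hx
      · exact hx
      · exact τ1 _ hx
    · exact d0 (h1.trans S_pre)
    · exact η3 m h1

end Pool.Agent.H.MP_f74662
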