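import Pool.Agent.H.MP_f74662.C

set_option autoImplicit false
open Set Function Topology Filter

namespace Pool.Agent.H.MP_f74662

open T

variable {X Y Z y y' y0 Dd : Set T} {f g : T → T} {r : ℕ}

def AA (E y V : Set T) : Set T := W fun n => match n with
  | 0 => E
  | 1 => y
  | _ + 2 => V

def A (r : ℕ) (Dd y : Set T) : Set T := AA (L Dd) y (S r)

def B (r : ℕ) (Dd : Set T) : Set T := AA (L Dd) (L (S r)) ∅

lemma AA_sub {E V : Set T} (h : Z ⊆ AA E y V) {V' : Set T} (h' : V ⊆ V') :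
    Z ⊆ AA E (sl 1 Z) V' := by
  rintro (_ | ⟨_ | _ | n, t⟩) hx
  · exact h hx
  · exact h hx
  · exact hx
  · exact h' (h hx)

lemma AA_mono {E V V' : Set T} (h : y ⊆ y') (h' : V ⊆ V') : AA E y V ⊆ AA E y' V' := by
  rintro (_ | ⟨_ | _ | n, t⟩) hx
  · exact hx
  · exact hx
  · exact h hx
  · exact h' hx

lemma Good.top0 (G : Good r y0 Dd) (hX : sl 0 X = L Dd) (hf : IsE f X Z)
    (hZ : Z ⊆ A r Dd (L (S r))) : f (c 0 o) = c 0 o ∧ Em (L Dd) (sl 0 Z) := by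
  have h : IsE (f ∘ c 0) (L Dd) Z := hX ▸ (isE_c 0 X).comp hf
  have h1 : f (c 0 o) ∈ D (r + 1) (A r Dd (L (S r))) :=
    D_mono _ hZ (h.D (r + 1) (o_DL (G.d3.D ⟨o, (S_D r).1⟩)))
  rcases e : f (c 0 o) with _ | ⟨_ | _ | m, s⟩ <;> rw [e] at h1
  · exact (D_sub _ h1).elim
  · obtain rfl : s = o := D_top (X := L Dd) (fun _ => G.d1) (c_D.1 h1)
    obtain ⟨N, g, hg, -⟩ := h.loc o_L e
    exact ⟨rfl, (L_tail N).trans ⟨g, hg⟩⟩
  · obtain rfl : s = o := (S_D (r + 1)).2 (c_D.1 h1)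
    obtain ⟨N, g, hg, e'⟩ := h.loc o_L e
    exact (G.d4 (top_fle (hg.mono Subset.rfl fun _ h => sl_mono 1 hZ (hg.1 h)) e')).elim
  · exact absurd (c_D.1 h1) (D_next (S_D r).2 ▸ notMem_empty s)

lemma Good.inf (G : Good r y0 Dd) (hf : IsE f (A r Dd y) Z) (hZ : Z ⊆ A r Dd (L (S r)))
    (h1 : (o ∈ y ∧ f (c 1 o) = c 1 o) ∨ (D r (sl 1 Z)).Finite) :
    {n | (D r (sl (n + 2) Z)).Nonempty}.Infinite := by
  intro hJ
  let M : Set T := range fun n => c (n + 2) o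
  have m1 : M ⊆ D r (A r Dd y) := by rintro _ ⟨n, rfl⟩; exact c_D.2 (S_D r).1
  have m2 : M ⊆ A r Dd y := m1.trans (D_sub r)
  have m3 : f '' M ⊆ D r Z := ((hf.D r).mono_left m1).image_subset
  have m4 : ∀ n, sl n (f '' M) ⊆ D r (sl n Z) := fun n t ht => c_D.1 (m3 ht)
  have m5 : M.Infinite := infinite_range_of_injective fun a b e => by cases e; rfl
  refine m5.image (hf.inj.mono m2) (fin_sl ?_ ?_)
  · refine ((hJ.image (· + 2)).union (finite_Iio 2)).subset ?_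
    rintro (_ | _ | n) ⟨t, ht⟩
    · exact Or.inr (by simp)
    · exact Or.inr (by simp)
    · exact Or.inl ⟨n, ⟨t, m4 _ ht⟩, rfl⟩
  · rintro (_ | _ | n)
    · refine fin_away ((m4 0).trans (D_mono r (sl_mono 0 hZ))) G.d2 ?_
      rw [← cl_c, ← (G.top0 rfl hf hZ).1, ← hf.2 (c 0 o) (o_L (X := Dd)) M m2]
      exact nc fun t ⟨n, e⟩ => by cases e
    · rcases h1 with h1 | h1
      · refine fin_away ((m4 1).trans (D_mono r (sl_mono 1 hZ)))
          ((finite_singleton o).subset (S_D r).2) ?_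
        rw [← cl_c, ← h1.2, ← hf.2 (c 1 o) h1.1 M m2]
        exact nc fun t ⟨n, e⟩ => by cases e
      · exact h1.subset (m4 1)
    · exact (finite_singleton o).subset ((m4 _).trans ((D_mono r (sl_mono _ hZ)).trans (S_D r).2))

lemma bld (h0 : Em (L Dd) (sl 0 Z)) (h1 : Em y (sl 1 Z))
    (hJ : {n | (D r (sl (n + 2) Z)).Nonempty}.Infinite) : Em (A r Dd y) Z := by
  refine glue1 (fun n => match n with
    | 0 => 0
    | 1 => 1
    | n + 2 => (hJ.natEmbedding _ n).1 + 2) ?_ ?_ fun h => h.elim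
  · rintro (_ | _ | a) (_ | _ | b) e <;> simp only at e <;> try omega
    rw [(hJ.natEmbedding _).injective (Subtype.ext (add_left_injective 2 e))]
  · rintro (_ | _ | n)
    · exact h0
    · exact h1
    · obtain ⟨t, ht⟩ := (hJ.natEmbedding _ n).2
      exact S_min r t _ ht

lemma A_mono (h : pre r y y') : Em (A r Dd y) (A r Dd y') := by
  refine glue (fun n => match n with
    | 0 => {0}
    | 1 => (fun m => 2 * m + 1) '' univ
    | n + 2 => {2 * n + 2}) ?_ ?_ fun h => h.elim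
  · rintro (_ | _ | a) (_ | _ | b) m h h' <;>
      simp only [mem_singleton_iff, mem_image, mem_univ, true_and] at h h' <;> omega
  · rintro (_ | _ | n)
    · exact em_res rfl Em.rfl
    · refine (Em.trans h (em_all (o_W _))).trans (reix _ (fun a b e => by simpa using e) ?_)
      rintro (_ | m) -
      · exact Em.rfl
      · exact Em.rfl
    · exact em_res rfl Em.rfl

lemma split3 (ho : o ∉ X) (F : Set ℕ) : res X F ∪ res X Fᶜ = X := by
  refine Subset.antisymm (union_subset res_sub res_sub) ?_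
  rintro (_ | ⟨m, s⟩) hx
  · exact absurd hx ho
  · by_cases h : m ∈ F
    · exact Or.inl (c_res.2 ⟨hx, h⟩)
    · exact Or.inr (c_res.2 ⟨hx, h⟩)

lemma sep_c (F : Set ℕ) : Sep (res X F) (res X Fᶜ) := sep_res fun _ h h' => h' h

lemma res_em' (m : ℕ) : Em (res Y {m}) (sl m Y) := let ⟨g, h, _⟩ := res_em (Y := Y) m; ⟨g, h⟩

lemma abs2 {F : Set ℕ} (ho : o ∉ X) (h0 : 0 ∉ F) (h1 : sl 0 X ⊆ L Dd) (h2 : fle (res X F) Dd)
    (h3 : sl 0 Y = L Dd) (h4 : ∀ n, n ≠ 0 → n ∉ F → Em (sl n X) (sl n Y)) : Em X Y := by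
  have a1 := absorb (sep_res (X := X) (F := {0}) (F' := F) (by rintro _ rfl; exact h0))
    ((res_em' 0).trans (Em.sub h1)) h2
  have a2 : Em (res X ({0} ∪ F)ᶜ) (res Y (id '' ({0} ∪ F)ᶜ)) :=
    reix _ injective_id fun n hn => h4 n (fun e => hn (Or.inl e)) fun e => hn (Or.inr e)
  have a3 : Em (res X ({0} ∪ F)) (res Y {0}) := by
    refine em_res rfl (h3 ▸ (Em.sub ?_).trans a1)
    rintro _ ⟨h, m, hm | hm, s, rfl⟩
    · exact Or.inl (c_res.2 ⟨h, hm⟩)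
    · exact Or.inr (c_res.2 ⟨h, hm⟩)
  have := glue2 (sep_c _) (sep_res ?_) a3 a2
  · rw [split3 ho] at this
    exact this.trans (Em.sub (union_subset res_sub res_sub))
  · rintro _ rfl ⟨a, h, rfl⟩
    exact h (Or.inl rfl)

lemma A_abs (h : fle y Dd) : Em (A r Dd y) (A r Dd ∅) := by
  refine abs2 (F := {1}) (o_W _) (by simp) Subset.rfl ((res_em' 1).trans_fle h) rfl ?_
  rintro (_ | _ | n) h h'
  · exact absurd rfl h
  · exact absurd rfl h'
  · exact Em.rfl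

lemma Good.low (G : Good r y0 Dd) (hy : y ⊆ L (S r)) (h1 : pre r y y0) (h2 : ¬ pre r y0 y) :
    Em (A r Dd y) (A r Dd ∅) := by
  by_cases ho : o ∈ y
  · exact A_abs (G.d6 y hy ho h1 h2)
  · exact A_mono (pre_sm (sm_no hy ho))

lemma Good.has (G : Good r y0 Dd) (hy : y ⊆ L (S r)) (h : pre r y0 y) : o ∈ y := by
  by_contra ho
  exact G.d0 (h.trans (pre_sm (sm_no hy ho)))

lemma Good.inv (G : Good r y0 Dd) (hy : y ⊆ L (S r)) (h : pre r y0 y) {V : Set T}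
    (hf : IsE f (AA (L Dd) y V) Z) (hZ : Z ⊆ A r Dd (L (S r))) :
    f (c 1 o) = c 1 o ∧ pre r y (sl 1 Z) := by
  have ho := G.has hy h
  have h0 : ∀ N, ¬ Em (tail N y) (S r) := fun N e => G.d0 ((h.trans (pre_tail hy e)).trans S_pre)
  have h1 : IsE (f ∘ c 1) y Z := (isE_c 1 _).comp hf
  have h2 : f (c 1 o) ∈ A r Dd (L (S r)) := hZ (h1.1 ho)
  rcases e : f (c 1 o) with _ | ⟨m, s⟩
  · rw [e] at h2; exact h2.elim
  obtain ⟨N, g, hg, e'⟩ := h1.loc ho e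
  rcases m with _ | _ | m
  · rcases s with _ | ⟨k, s⟩
    · have h3 : InjOn f (AA (L Dd) y V) := hf.inj
      cases @h3 (c 1 o) ho (c 0 o) (o_L (X := Dd)) (e.trans (G.top0 rfl hf hZ).1.symm)
    · obtain ⟨N', g', hg', -⟩ := hg.loc (o_tail ho) e'
      exact (G.d7 y hy ho _ (((Em.sub (tail_tail N N')).trans ⟨g', hg'⟩).trans
        (Em.sub (sl_mono k (sl_mono 0 hZ)))) h).elim
  · rcases s with _ | ⟨k, s⟩
    · exact ⟨rfl, pre_tail hy ⟨g, hg⟩⟩
    · obtain ⟨N', g', hg', -⟩ := hg.loc (o_tail ho) e'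
      exact (h0 _ (((Em.sub (tail_tail N N')).trans ⟨g', hg'⟩).trans
        (Em.sub (sl_mono k (sl_mono 1 hZ))))).elim
  · exact (h0 N (Em.trans ⟨g, hg⟩ (Em.sub (sl_mono _ hZ)))).elim

def Cv (X Y : Set T) : Prop := Em X Y ∧ ¬ Em Y X ∧ ∀ Z ⊆ Y, Em X Z → Em Z X ∨ Em Y Z

lemma Good.cv1 (G : Good r y0 Dd) (hy : y ⊆ L (S r)) (hy' : y' ⊆ L (S r)) (h : pre r y0 y)
    (hc : Cov r y y') : Cv (A r Dd y) (A r Dd y') := by
  refine ⟨A_mono hc.1, fun ⟨f, hf⟩ => hc.2.1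
    (G.inv hy' (h.trans hc.1) hf (AA_mono hy Subset.rfl)).2, fun Z hZ ⟨f, hf⟩ => ?_⟩
  have hZ' : Z ⊆ A r Dd (L (S r)) := hZ.trans (AA_mono hy' Subset.rfl)
  obtain ⟨a, b⟩ := G.inv hy h hf hZ'
  rcases hc.2.2 _ (sl_mono 1 hZ') b (Em.sub (sl_mono 1 hZ)).pre with e | e
  · exact Or.inl ((Em.sub (AA_sub hZ Subset.rfl)).trans (A_mono e))
  · exact Or.inr ((A_mono e).trans (bld (G.top0 rfl hf hZ').2 Em.rfl
      (G.inf hf hZ' (Or.inl ⟨G.has hy h, a⟩))))

lemma Good.cv2 (G : Good r y0 Dd) (hy : y0 ⊆ L (S r)) (hg : ¬ pre r (L (S r)) y0) :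
    Cv (A r Dd ∅) (A r Dd y0) := by
  have hZ0 : A r Dd y0 ⊆ A r Dd (L (S r)) := AA_mono hy Subset.rfl
  refine ⟨A_mono em_empty.pre, fun ⟨f, hf⟩ => G.d0
    (G.inv hy Em.rfl.pre hf (AA_mono (empty_subset _) Subset.rfl)).2, fun Z hZ ⟨f, hf⟩ => ?_⟩
  by_cases e : pre r y0 (sl 1 Z)
  · refine Or.inr ((A_mono e).trans (bld (G.top0 rfl hf (hZ.trans hZ0)).2 Em.rfl
      (G.inf hf (hZ.trans hZ0) (Or.inr ((fin_g hy (G.has hy Em.rfl.pre) ?_).subset
        (D_mono r (sl_mono 1 hZ)))))))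
    by_contra hn
    obtain ⟨x, hx⟩ := nonempty_iff_ne_empty.2 hn
    exact hg (S_min (r + 1) x _ hx).pre
  · exact Or.inl ((Em.sub (AA_sub hZ Subset.rfl)).trans
      (G.low (sl_mono 1 (hZ.trans hZ0)) (Em.sub (sl_mono 1 hZ)).pre e))

lemma Good.cv3 (G : Good r y0 Dd) (hy : y0 ⊆ L (S r)) : Cv (A r Dd ∅) (B r Dd) := by
  have hB : B r Dd ⊆ A r Dd (L (S r)) := AA_mono Subset.rfl (empty_subset _)
  refine ⟨?_, fun ⟨f, hf⟩ => G.d0 ((Em.sub hy).pre.trans (G.inv Subset.rfl (Em.sub hy).pre hf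
    (AA_mono (empty_subset _) Subset.rfl)).2), fun Z hZ ⟨f, hf⟩ => ?_⟩
  · have a1 : Em (res (A r Dd ∅) {0}ᶜ) (res (B r Dd) {1}) := by
      refine em_res rfl (Em.sub ?_)
      rintro _ ⟨h, _ | _ | m, hm, s, rfl⟩
      · exact absurd rfl hm
      · exact h.elim
      · exact h
    have := glue2 (sep_c _) (sep_res (X := B r Dd) (F := {0}) (by simp))
      (em_res rfl (res_em' (Y := A r Dd ∅) 0)) a1
    rw [split3 (X := A r Dd ∅) (o_W _)] at this
    exact this.trans (Em.sub (union_subset res_sub res_sub))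
  · by_cases ho : o ∈ sl 1 Z
    · by_cases hn : D (r + 1) (sl 1 Z) = ∅
      · obtain ⟨n, t, ht⟩ := (G.inf hf (hZ.trans hB) (Or.inr (fin_g (sl_mono 1 hZ) ho hn))).nonempty
        exact (@hZ (c (n + 2) t) (D_sub r (X := sl (n + 2) Z) ht)).elim
      · obtain ⟨x, hx⟩ := nonempty_iff_ne_empty.2 hn
        refine Or.inr (glue1 id injective_id ?_ fun h => h.elim)
        rintro (_ | _ | n)
        · exact (G.top0 rfl hf (hZ.trans hB)).2
        · exact S_min (r + 1) x _ hx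
        · exact em_empty
    · exact Or.inl ((Em.sub (AA_sub hZ (empty_subset _))).trans
        (A_mono (pre_sm (sm_no (sl_mono 1 hZ) ho))))

lemma Good.cv4 (G : Good r y0 Dd) (hy : y0 ⊆ L (S r)) : Cv (B r Dd) (A r Dd (L (S r))) := by
  have hB : B r Dd ⊆ A r Dd (L (S r)) := AA_mono Subset.rfl (empty_subset _)
  refine ⟨Em.sub hB, fun ⟨f, hf⟩ => ?_, fun Z hZ ⟨f, hf⟩ => ?_⟩
  · obtain ⟨n, t, ht⟩ := (G.inf hf hB (Or.inl ⟨o_L,
      (G.inv Subset.rfl (Em.sub hy).pre hf hB).1⟩)).nonempty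
    exact D_sub r ht
  · by_cases hJ : {n | (D r (sl (n + 2) Z)).Nonempty}.Infinite
    · exact Or.inr ((A_mono (G.inv Subset.rfl (Em.sub hy).pre hf hZ).2).trans
        (bld (G.top0 rfl hf hZ).2 Em.rfl hJ))
    · refine Or.inl (abs2 (F := Ici 2) (fun h => hZ h) (by simp) (sl_mono 0 hZ) ?_ rfl ?_)
      · have a0 : ∀ n, sl n (res Z (Ici 2)) ⊆ S r := by
          rintro (_ | _ | n) t ht
          · exact absurd (c_res.1 ht).2 (by simp)
          · exact absurd (c_res.1 ht).2 (by simp)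
          · exact hZ ht.1
        rw [← split3 (X := res Z (Ici 2)) o_res ((· + 2) '' {n | (D r (sl (n + 2) Z)).Nonempty})]
        refine fle_union (sep_c _) (fle_fin ((not_infinite.1 hJ).image _)
          fun n _ => ((Em.sub (a0 n)).trans G.d3).fle) (G.d5 _ o_res fun n =>
            ⟨(sl_mono n res_sub).trans (a0 n), ?_⟩).fle
        refine eq_empty_of_forall_notMem fun t ht => ?_
        obtain ⟨h1, h2⟩ := (c_res (m := n) (s := t)).1 (D_sub r (X := sl n _) ht)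
        obtain ⟨m, rfl⟩ := Nat.exists_eq_add_of_le' (c_res.1 h1).2
        exact h2 ⟨m, ⟨t, D_mono r (sl_mono _ (res_sub.trans res_sub)) ht⟩, rfl⟩
      · rintro (_ | _ | n) h h'
        · exact absurd rfl h
        · exact Em.sub (sl_mono 1 (Y := A r Dd (L (S r))) hZ)
        · exact absurd (by simp) h'

lemma main (N : ℕ) (hN : 0 < N) : ∃ A B C : Set T, ∃ X : ℕ → Set T, Cv A B ∧ Cv B C ∧ Cv A (X 0) ∧
    (∀ i < N, Cv (X i) (X (i + 1))) ∧ X N = C := by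
  obtain ⟨Y, h1, h2, h3, h4⟩ := chain (r := N + 1) 2 N _ Subset.rfl
    (by simpa [add_comm, add_assoc, add_left_comm] using Ht_g (N + 1))
  obtain ⟨Dd, G⟩ := exD (h3 0 (by omega)) h2
  have h5 : ∀ i ≤ N, pre (N + 1) (Y 0) (Y i) := by
    intro i
    induction i with
    | zero => exact fun _ => Em.rfl.pre
    | succ i ih => exact fun hi => (ih (by omega)).trans (h4 i hi).1
  refine ⟨A (N + 1) Dd ∅, B (N + 1) Dd, A (N + 1) Dd (L (S (N + 1))), fun i => A (N + 1) Dd (Y i),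
    G.cv3 (h3 0 (by omega)), G.cv4 (h3 0 (by omega)), G.cv2 (h3 0 (by omega)) fun h => ?_,
    fun i hi => G.cv1 (h3 i hi.le) (h3 _ hi) (h5 i hi.le) (h4 i hi), by simp only [h1]⟩
  exact (h4 0 hN).2.1 ((Em.sub (h3 1 hN)).pre.trans h)

lemma em_iff : Em X Y ↔ ∃ f : X → Y, IsEmbedding f := by
  constructor
  · rintro ⟨f, hf⟩
    have hm : MapsTo f X Y := hf.1
    refine ⟨hm.restrict, ⟨?_⟩, fun a b e => Subtype.ext (hf.inj a.2 b.2 (congrArg Subtype.val e))⟩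
    refine TopologicalSpace.ext_iff_isClosed.2 fun s => ?_
    have key : ∀ x : X, x ∈ closure s ↔ hm.restrict f X Y x ∈ closure (hm.restrict f X Y '' s) := by
      intro x
      rw [closure_subtype, closure_subtype, hf.2 x x.2 _ (Subtype.coe_image_subset X s),
        image_image, image_image]
      rfl
    exact (closure_subset_iff_isClosed.symm.trans ⟨fun h a ha => h ((key a).2 ha),
      fun h a ha => h a ((key a).1 ha)⟩).trans isClosed_induced_iff'.symm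
  · rintro ⟨f, hf⟩
    classical
    refine ⟨fun x => if h : x ∈ X then (f ⟨x, h⟩).1 else x, fun x hx => ?_, fun x hx M hM => ?_⟩
    · simp only [dif_pos hx]; exact (f ⟨x, hx⟩).2
    · have e1 : M = Subtype.val '' (Subtype.val ⁻¹' M : Set X) := by
        rw [Subtype.image_preimage_coe, inter_eq_right.2 hM]
      have e2 : (fun x => if h : x ∈ X then (f ⟨x, h⟩).1 else x) '' M =
          Subtype.val '' (f '' (Subtype.val ⁻¹' M)) := by
        conv_lhs => rw [e1]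
        rw [image_image, image_image]
        exact image_congr fun a _ => dif_pos a.2
      simp only [dif_pos hx]
      rw [e2, ← closure_subtype, ← mem_preimage, ← hf.isInducing.closure_eq_preimage_closure_image,
        closure_subtype, ← e1]

def ER (E F : Set ℝ) : Prop := ∃ f : E → F, IsEmbedding f

lemma ER.trans {E F G : Set ℝ} (h : ER E F) (h' : ER F G) : ER E G :=
  let ⟨_, a⟩ := h; let ⟨_, b⟩ := h'; ⟨_, b.comp a⟩

lemma er_iff : ER (ρ '' X) (ρ '' Y) ↔ Em X Y := by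
  rw [em_iff]
  exact ⟨fun ⟨f, h⟩ => ⟨_, ((ρ_emb.homeomorphImage Y).symm.isEmbedding.comp h).comp
      (ρ_emb.homeomorphImage X).isEmbedding⟩,
    fun ⟨f, h⟩ => ⟨_, ((ρ_emb.homeomorphImage Y).isEmbedding.comp h).comp
      (ρ_emb.homeomorphImage X).symm.isEmbedding⟩⟩

lemma Cv.real (h : Cv X Y) : (ER (ρ '' X) (ρ '' Y) ∧ ¬ ER (ρ '' Y) (ρ '' X)) ∧
    ¬ ∃ G : Set ℝ, (ER (ρ '' X) G ∧ ¬ ER G (ρ '' X)) ∧ ER G (ρ '' Y) ∧ ¬ ER (ρ '' Y) G := by
  refine ⟨⟨er_iff.2 h.1, fun e => h.2.1 (er_iff.1 e)⟩, ?_⟩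
  rintro ⟨G, ⟨a, b⟩, ⟨f, hf⟩, d⟩
  have hf' : IsEmbedding (Subtype.val ∘ f) := IsEmbedding.subtypeVal.comp hf
  have e : range (Subtype.val ∘ f) = ρ '' (Y ∩ ρ ⁻¹' range (Subtype.val ∘ f)) := by
    rw [image_inter_preimage, eq_comm, inter_eq_right]
    rintro _ ⟨x, rfl⟩
    exact (f x).2
  have e1 : ER G (ρ '' (Y ∩ ρ ⁻¹' range (Subtype.val ∘ f))) := e ▸ ⟨_, hf'.toHomeomorph.isEmbedding⟩
  have e2 : ER (ρ '' (Y ∩ ρ ⁻¹' range (Subtype.val ∘ f))) G :=
    e ▸ ⟨_, hf'.toHomeomorph.symm.isEmbedding⟩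
  rcases h.2.2 _ inter_subset_left (er_iff.1 (a.trans e1)) with g | g
  · exact b (e1.trans (er_iff.2 g))
  · exact d ((er_iff.2 g).trans e2)

end Pool.Agent.H.MP_f74662
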